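import Mathlib

/-!
# A counterexample to the Laborde-Payan-Xuong conjecture: finite core

The core digraph has 12 vertices coded by 0..11: `a i = i`, `z i = 3 + i`, `y i = 6 + i`,
`x i = 9 + i` for i in Z/3, with arcs a i -> a (i+1), a i -> z i, z i -> x i, x i -> y i,
y i -> y (i+1), y i -> z i, z i -> a (i+1).
-/

set_option autoImplicit false

namespace Pool.Agent.Helper20.LPX

/-- out-neighbours in the core -/
def nb : ℕ → List ℕ
  | 0 => [1, 3]
  | 1 => [2, 4]
  | 2 => [0, 5]
  | 3 => [9, 1]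
  | 4 => [10, 2]
  | 5 => [11, 0]
  | 6 => [7, 3]
  | 7 => [8, 4]
  | 8 => [6, 5]
  | 9 => [6]
  | 10 => [7]
  | 11 => [8]
  | _ => []

/-- in-neighbours in the core -/
def nbR : ℕ → List ℕ
  | 0 => [2, 5]
  | 1 => [0, 3]
  | 2 => [1, 4]
  | 3 => [0, 6]
  | 4 => [1, 7]
  | 5 => [2, 8]
  | 6 => [8, 9]
  | 7 => [6, 10]
  | 8 => [7, 11]
  | 9 => [3]
  | 10 => [4]
  | 11 => [5]
  | _ => []

/-- lists (latest vertex first) that are paths for the neighbour function `N` -/
inductive CP (N : ℕ → List ℕ) : List ℕ → Prop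
  | single (x : ℕ) : x < 12 → CP N [x]
  | cons (y x : ℕ) (l : List ℕ) : CP N (x :: l) → y ∈ N x → y ∉ x :: l → CP N (y :: x :: l)

/-- exhaustive search -/
def chk (N : ℕ → List ℕ) (P : List ℕ → Bool) : ℕ → List ℕ → Bool
  | 0, _ => false
  | _ + 1, [] => false
  | k + 1, x :: l => P (x :: l) && (N x).all (fun y => (x :: l).contains y || chk N P k (y :: x :: l))

theorem CP.exists_chk {N : ℕ → List ℕ} {P : List ℕ → Bool} {n : ℕ}
    (h : ∀ x, x < 12 → chk N P n [x] = true) {q : List ℕ} (hq : CP N q) :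
    ∃ k, chk N P k q = true := by
  induction hq with
  | single x hx => exact ⟨n, h x hx⟩
  | cons y x l hl hy hn ih =>
    obtain ⟨k, hk⟩ := ih
    cases k with
    | zero => simp [chk] at hk
    | succ k =>
      refine ⟨k, ?_⟩
      rw [chk, Bool.and_eq_true, List.all_eq_true] at hk
      have h2 := hk.2 y hy
      rw [Bool.or_eq_true] at h2
      rcases h2 with h2 | h2
      · exact absurd (List.contains_iff_mem.1 h2) hn
      · exact h2

theorem CP.of_chk {N : ℕ → List ℕ} {P : List ℕ → Bool} {n : ℕ}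
    (h : ∀ x, x < 12 → chk N P n [x] = true) {q : List ℕ} (hq : CP N q) : P q = true := by
  obtain ⟨k, hk⟩ := hq.exists_chk h
  cases k with
  | zero => simp [chk] at hk
  | succ k =>
    cases q with
    | nil => simp [chk] at hk
    | cons x l =>
      rw [chk, Bool.and_eq_true] at hk
      exact hk.1

/-- weight of a path whose first vertex is `s`: one more if it does not start in A -/
def extra (s : ℕ) : ℕ := if s < 3 then 0 else 1

/-- the bound for forward paths -/
def PF (l : List ℕ) : Bool :=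
  decide (l.length + extra (l.getLastD 0) ≤ 11) &&
    (!(decide (6 ≤ l.headD 0) && decide (l.headD 0 < 9)) ||
      decide (l.length + extra (l.getLastD 0) ≤ 10))

/-- the bound for backward paths -/
def PR (l : List ℕ) : Bool :=
  decide (l.length + extra (l.headD 0) ≤ 11) &&
    (!(decide (6 ≤ l.getLastD 0) && decide (l.getLastD 0 < 9)) ||
      decide (l.length + extra (l.headD 0) ≤ 10))

theorem chkF : ∀ x, x < 12 → chk nb PF 12 [x] = true := by decide +kernel

theorem chkR : ∀ x, x < 12 → chk nbR PR 12 [x] = true := by decide +kernel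

theorem PF_of_CP {q : List ℕ} (hq : CP nb q) : PF q = true := hq.of_chk chkF

theorem PR_of_CP {q : List ℕ} (hq : CP nbR q) : PR q = true := hq.of_chk chkR

/-- adjacency of the whole digraph, vertices coded as pairs `(i, x)` with `i < 20`, `x < 13`;
`(i, 12)` is the vertex `c i` of the transitive tournament and `(i, x)`, `x < 12`, is the vertex
`x` of the `i`-th gadget, a copy of the core for `i < 10` and a reversed copy for `10 ≤ i`. -/
def adjN (i x j y : ℕ) : Bool :=
  if x = 12 then
    if y = 12 then decide (i < j)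
    else if j < 10 then (if y < 3 then decide (i + 1 = j) else decide (i = j))
    else decide (6 ≤ y ∧ y < 9 ∧ i + 10 = j)
  else if y = 12 then
    if i < 10 then decide (6 ≤ x ∧ x < 9 ∧ j = i + 10)
    else (if x < 3 then decide (j = i + 1) else decide (j = i))
  else decide (i = j) && (if i < 10 then (nb x).contains y else (nbR x).contains y)

/-- the invariant at time `t` of a path `(I s, X s)`, `s ≤ t` -/
def Inv (I X : ℕ → ℕ) (t : ℕ) : Prop :=
  (X t = 12 → t ≤ I t) ∧
  (X t ≠ 12 → I t < 10 → ∃ q : List ℕ, CP nb (X t :: q) ∧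
    (∀ y ∈ X t :: q, ∃ s, s ≤ t ∧ I s = I t ∧ X s = y) ∧
    t + 1 ≤ I t + ((X t :: q).length + extra ((X t :: q).getLastD 0))) ∧
  (X t ≠ 12 → 10 ≤ I t → ∃ q : List ℕ, CP nbR (X t :: q) ∧
    (∀ y ∈ X t :: q, ∃ s, s ≤ t ∧ I s = I t ∧ X s = y) ∧
    (t + 1 ≤ (X t :: q).length ∨
      (6 ≤ (X t :: q).getLastD 0 ∧ (X t :: q).getLastD 0 < 9 ∧
        t + 10 ≤ (X t :: q).length + I t)))

theorem inv_zero (I X : ℕ → ℕ) (hX : X 0 < 13) : Inv I X 0 := by
  refine ⟨fun _ => Nat.zero_le _, fun h _ => ⟨[], CP.single _ (by omega), ?_, ?_⟩,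
    fun h _ => ⟨[], CP.single _ (by omega), ?_, ?_⟩⟩
  · intro y hy
    simp only [List.mem_singleton] at hy
    exact ⟨0, le_refl _, rfl, hy.symm⟩
  · simp [List.getLastD]
    omega
  · intro y hy
    simp only [List.mem_singleton] at hy
    exact ⟨0, le_refl _, rfl, hy.symm⟩
  · left
    simp

theorem PF_le {q : List ℕ} (hq : CP nb q) : q.length + extra (q.getLastD 0) ≤ 11 := by
  have h := PF_of_CP hq
  simp only [PF, Bool.and_eq_true, decide_eq_true_eq] at h
  exact h.1

theorem PF_le' {x : ℕ} {q : List ℕ} (hq : CP nb (x :: q)) (h1 : 6 ≤ x) (h2 : x < 9) :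
    (x :: q).length + extra ((x :: q).getLastD 0) ≤ 10 := by
  have h := PF_of_CP hq
  simp only [PF, Bool.and_eq_true, Bool.or_eq_true, decide_eq_true_eq, List.headD_cons,
    h1, h2, decide_true, Bool.and_self, Bool.not_true] at h
  rcases h.2 with h3 | h3
  · exact absurd h3 (by simp)
  · exact h3

theorem PR_le {x : ℕ} {q : List ℕ} (hq : CP nbR (x :: q)) :
    (x :: q).length + extra x ≤ 11 := by
  have h := PR_of_CP hq
  simp only [PR, Bool.and_eq_true, decide_eq_true_eq, List.headD_cons] at h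
  exact h.1

theorem PR_le' {x : ℕ} {q : List ℕ} (hq : CP nbR (x :: q)) (h1 : 6 ≤ (x :: q).getLastD 0)
    (h2 : (x :: q).getLastD 0 < 9) : (x :: q).length + extra x ≤ 10 := by
  have h := PR_of_CP hq
  simp only [PR, Bool.and_eq_true, Bool.or_eq_true, decide_eq_true_eq, List.headD_cons,
    h1, h2, decide_true, Bool.and_self, Bool.not_true] at h
  rcases h.2 with h3 | h3
  · exact absurd h3 (by simp)
  · exact h3

end Pool.Agent.Helper20.LPX
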