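import Pool.Agent.Helper20.LPX.Basic

/-!
# Every path of the digraph has at most 20 vertices
-/

set_option autoImplicit false

namespace Pool.Agent.Helper20.LPX

theorem getLastD_cons_cons (y x : ℕ) (l : List ℕ) :
    (y :: x :: l).getLastD 0 = (x :: l).getLastD 0 := by
  simp [List.getLastD]

theorem inv_succ {I X : ℕ → ℕ} {t : ℕ} (h : Inv I X t)
    (hy13 : X (t + 1) < 13)
    (hinj : ∀ s, s ≤ t → ¬ (I s = I (t + 1) ∧ X s = X (t + 1)))
    (hadj : adjN (I t) (X t) (I (t + 1)) (X (t + 1)) = true) : Inv I X (t + 1) := by
  obtain ⟨h1, h2, h3⟩ := h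
  unfold adjN at hadj
  by_cases hx : X t = 12
  · have ht := h1 hx
    rw [if_pos hx] at hadj
    by_cases hy : X (t + 1) = 12
    · rw [if_pos hy, decide_eq_true_eq] at hadj
      exact ⟨fun _ => by omega, fun h' => absurd hy h', fun h' => absurd hy h'⟩
    · rw [if_neg hy] at hadj
      refine ⟨fun h' => absurd h' hy, fun _ hi => ?_, fun _ hi => ?_⟩
      · rw [if_pos hi] at hadj
        refine ⟨[], CP.single _ (by omega), ?_, ?_⟩
        · intro z hz
          simp only [List.mem_singleton] at hz
          exact ⟨t + 1, le_refl _, rfl, hz.symm⟩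
        · simp only [List.getLastD, List.length_singleton, List.getLast_singleton, extra]
          by_cases hy3 : X (t + 1) < 3
          · rw [if_pos hy3, decide_eq_true_eq] at hadj
            rw [if_pos hy3]
            omega
          · rw [if_neg hy3, decide_eq_true_eq] at hadj
            rw [if_neg hy3]
            omega
      · rw [if_neg (by omega), decide_eq_true_eq] at hadj
        refine ⟨[], CP.single _ (by omega), ?_, Or.inr ?_⟩
        · intro z hz
          simp only [List.mem_singleton] at hz
          exact ⟨t + 1, le_refl _, rfl, hz.symm⟩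
        · simp only [List.getLastD, List.length_singleton, List.getLast_singleton]
          omega
  · rw [if_neg hx] at hadj
    by_cases hy : X (t + 1) = 12
    · rw [if_pos hy] at hadj
      refine ⟨fun _ => ?_, fun h' => absurd hy h', fun h' => absurd hy h'⟩
      by_cases hi : I t < 10
      · rw [if_pos hi, decide_eq_true_eq] at hadj
        obtain ⟨q, hq, -, hlen⟩ := h2 hx hi
        have := PF_le' hq hadj.1 hadj.2.1
        omega
      · rw [if_neg hi] at hadj
        obtain ⟨q, hq, -, hlen⟩ := h3 hx (by omega)
        have hb := PR_le hq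
        by_cases hx3 : X t < 3
        · rw [if_pos hx3, decide_eq_true_eq] at hadj
          rcases hlen with hlen | ⟨ha, hb', hlen⟩
          · omega
          · have hb2 := PR_le' hq ha hb'
            omega
        · rw [if_neg hx3, decide_eq_true_eq] at hadj
          have he : extra (X t) = 1 := by simp [extra, hx3]
          rcases hlen with hlen | ⟨ha, hb', hlen⟩
          · omega
          · have hb2 := PR_le' hq ha hb'
            omega
    · rw [if_neg hy, Bool.and_eq_true, decide_eq_true_eq] at hadj
      obtain ⟨hIJ, hadj⟩ := hadj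
      refine ⟨fun h' => absurd h' hy, fun _ hi => ?_, fun _ hi => ?_⟩
      · have hi' : I t < 10 := by omega
        rw [if_pos hi', List.contains_iff_mem] at hadj
        obtain ⟨q, hq, hmem, hlen⟩ := h2 hx hi'
        refine ⟨X t :: q, CP.cons _ _ _ hq hadj ?_, ?_, ?_⟩
        · intro hc
          obtain ⟨s, hs, hIs, hXs⟩ := hmem _ hc
          exact hinj s hs ⟨by omega, hXs⟩
        · intro z hz
          rcases List.mem_cons.1 hz with hz | hz
          · exact ⟨t + 1, le_refl _, rfl, hz.symm⟩
          · obtain ⟨s, hs, hIs, hXs⟩ := hmem _ hz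
            exact ⟨s, by omega, by omega, hXs⟩
        · rw [getLastD_cons_cons]
          simp only [List.length_cons] at hlen ⊢
          omega
      · have hi' : ¬ I t < 10 := by omega
        rw [if_neg hi', List.contains_iff_mem] at hadj
        obtain ⟨q, hq, hmem, hlen⟩ := h3 hx (by omega)
        refine ⟨X t :: q, CP.cons _ _ _ hq hadj ?_, ?_, ?_⟩
        · intro hc
          obtain ⟨s, hs, hIs, hXs⟩ := hmem _ hc
          exact hinj s hs ⟨by omega, hXs⟩
        · intro z hz
          rcases List.mem_cons.1 hz with hz | hz
          · exact ⟨t + 1, le_refl _, rfl, hz.symm⟩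
          · obtain ⟨s, hs, hIs, hXs⟩ := hmem _ hz
            exact ⟨s, by omega, by omega, hXs⟩
        · rw [getLastD_cons_cons]
          simp only [List.length_cons] at hlen ⊢
          rcases hlen with hlen | ⟨ha, hb, hlen⟩
          · left
            omega
          · right
            exact ⟨ha, hb, by omega⟩

/-- a path `(I 0, X 0), ..., (I m, X m)` has at most 20 vertices -/
theorem path_bound {I X : ℕ → ℕ} {m : ℕ} (hI : ∀ t, t ≤ m → I t < 20)
    (hX : ∀ t, t ≤ m → X t < 13)
    (hinj : ∀ s t, s < t → t ≤ m → ¬ (I s = I t ∧ X s = X t))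
    (hadj : ∀ t, t < m → adjN (I t) (X t) (I (t + 1)) (X (t + 1)) = true) : m ≤ 19 := by
  have key : ∀ t, t ≤ m → Inv I X t := by
    intro t
    induction t with
    | zero => intro _; exact inv_zero I X (hX 0 (Nat.zero_le _))
    | succ t ih =>
      intro ht
      exact inv_succ (ih (by omega)) (hX _ ht) (fun s hs => hinj s (t + 1) (by omega) ht)
        (hadj t (by omega))
  obtain ⟨h1, h2, h3⟩ := key m (le_refl _)
  have hIm := hI m (le_refl _)
  by_cases hx : X m = 12
  · have := h1 hx
    omega
  · by_cases hi : I m < 10
    · obtain ⟨q, hq, -, hlen⟩ := h2 hx hi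
      have := PF_le hq
      omega
    · obtain ⟨q, hq, -, hlen⟩ := h3 hx (by omega)
      have hb := PR_le hq
      rcases hlen with hlen | ⟨ha, hb', hlen⟩
      · omega
      · have hb2 := PR_le' hq ha hb'
        omega

end Pool.Agent.Helper20.LPX
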