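import Pool.Agent.Helper20.LPX.Bound

/-!
# The counterexample to the Laborde-Payan-Xuong conjecture

Vertex set `Fin 20 × Fin 13` (260 vertices); the longest paths have 20 vertices and every
independent set misses one of them.
-/

set_option autoImplicit false

namespace Pool.Agent.Helper20.LPX

/-- the digraph -/
def D0 : Digraph (Fin 20 × Fin 13) where
  Adj u v := adjN u.1.val u.2.val v.1.val v.2.val = true

theorem D0_adj (u v : Fin 20 × Fin 13) :
    D0.Adj u v ↔ adjN u.1.val u.2.val v.1.val v.2.val = true := Iff.rfl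

theorem D0_irrefl : ∀ v : Fin 20 × Fin 13, ¬ D0.Adj v v := by
  have h : ∀ i : Fin 20, ∀ x : Fin 13, adjN i.val x.val i.val x.val = false := by
    decide +kernel
  intro v hv
  rw [D0_adj, h] at hv
  exact absurd hv (by simp)

/-- three long paths of the core, the `m`-th one avoids the vertex `m` -/
def P : ℕ → List (Fin 13)
  | 0 => [2, 5, 11, 8, 6, 3, 1, 4, 10, 7]
  | 1 => [0, 3, 9, 6, 7, 4, 2, 5, 11, 8]
  | _ => [1, 4, 10, 7, 8, 5, 0, 3, 9, 6]

/-- the longest paths used in the proof -/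
def pth (k : Fin 20) (m : Fin 3) (t : Fin 20) : Fin 20 × Fin 13 :=
  if k.val < 10 then
    (if k.val ≤ t.val ∧ t.val < k.val + 10 then (k, (P m.val).getD (t.val - k.val) 12)
      else (t, 12))
  else
    (if k.val ≤ t.val + 9 ∧ t.val ≤ k.val then (k, (P m.val).getD (k.val - t.val) 12)
      else (t, 12))

theorem pth_adj : ∀ (k : Fin 20) (m : Fin 3) (t : Fin 19),
    adjN (pth k m t.castSucc).1.val (pth k m t.castSucc).2.val
      (pth k m t.succ).1.val (pth k m t.succ).2.val = true := by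
  decide +kernel

theorem pth_ne : ∀ (k : Fin 20) (m : Fin 3) (s t : Fin 20), s < t → pth k m s ≠ pth k m t := by
  decide +kernel

theorem pth_injective (k : Fin 20) (m : Fin 3) : Function.Injective (pth k m) := by
  intro s t h
  rcases lt_trichotomy s t with h1 | h1 | h1
  · exact absurd h (pth_ne k m s t h1)
  · exact h1
  · exact absurd h.symm (pth_ne k m t s h1)

theorem pth_cases : ∀ (k : Fin 20) (m : Fin 3) (t : Fin 20),
    (∃ q : Fin 20, q ≠ k ∧ pth k m t = (q, 12)) ∨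
    (∃ x : Fin 13, 3 ≤ x.val ∧ x.val < 12 ∧ pth k m t = (k, x)) ∨
    (∃ r : Fin 3, r ≠ m ∧ pth k m t = (k, r.castLE (by decide))) := by
  decide +kernel

theorem adj_cc (p q : Fin 20) (h : p < q) : D0.Adj (p, 12) (q, 12) := by
  rw [D0_adj]
  have h' : p.val < q.val := h
  simp [adjN, h']

theorem adj_cx : ∀ (p : Fin 20) (x : Fin 13), 3 ≤ x.val → x.val < 12 →
    (adjN p.val 12 p.val x.val = true ∨ adjN p.val x.val p.val 12 = true) := by
  decide +kernel

theorem adj_aa : ∀ (p : Fin 20) (r s : Fin 3), r ≠ s →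
    (adjN p.val r.val p.val s.val = true ∨ adjN p.val s.val p.val r.val = true) := by
  decide +kernel

/-- paths of the digraph have at most 20 vertices -/
theorem D0_bound (m : ℕ) (g : Fin (m + 1) → Fin 20 × Fin 13) (hg : Function.Injective g)
    (ha : ∀ i : Fin m, D0.Adj (g i.castSucc) (g i.succ)) : m ≤ 19 := by
  let I : ℕ → ℕ := fun t => if h : t < m + 1 then (g ⟨t, h⟩).1.val else 0
  let X : ℕ → ℕ := fun t => if h : t < m + 1 then (g ⟨t, h⟩).2.val else 0
  have hI : ∀ t (h : t < m + 1), I t = (g ⟨t, h⟩).1.val := fun t h => dif_pos h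
  have hX : ∀ t (h : t < m + 1), X t = (g ⟨t, h⟩).2.val := fun t h => dif_pos h
  refine path_bound (I := I) (X := X) (m := m) ?_ ?_ ?_ ?_
  · intro t ht
    rw [hI t (by omega)]
    exact (g ⟨t, _⟩).1.isLt
  · intro t ht
    rw [hX t (by omega)]
    exact (g ⟨t, _⟩).2.isLt
  · rintro s t hst ht ⟨h1, h2⟩
    rw [hI s (by omega), hI t (by omega)] at h1
    rw [hX s (by omega), hX t (by omega)] at h2
    have h3 : g ⟨s, by omega⟩ = g ⟨t, by omega⟩ := Prod.ext (Fin.ext h1) (Fin.ext h2)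
    have h4 := hg h3
    rw [Fin.mk.injEq] at h4
    omega
  · intro t ht
    rw [hI t (by omega), hX t (by omega), hI (t + 1) (by omega), hX (t + 1) (by omega)]
    exact ha ⟨t, ht⟩

/-- every independent set misses a longest path -/
theorem D0_main (S : Set (Fin 20 × Fin 13)) (hS : ∀ u ∈ S, ∀ v ∈ S, ¬ D0.Adj u v)
    (hall : ∀ f : Fin (19 + 1) → Fin 20 × Fin 13, Function.Injective f →
      (∀ i : Fin 19, D0.Adj (f i.castSucc) (f i.succ)) → ∃ i, f i ∈ S) : False := by
  obtain ⟨p, hp⟩ : ∃ p : Fin 20, ((p, 12) : Fin 20 × Fin 13) ∈ S := by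
    refine hall (fun t => (t, 12)) (fun a b h => (Prod.mk.inj h).1) (fun i => ?_)
    exact adj_cc _ _ i.castSucc_lt_succ
  have hc : ∀ q : Fin 20, q ≠ p → ((q, 12) : Fin 20 × Fin 13) ∉ S := by
    intro q hq hqS
    rcases lt_or_gt_of_ne hq with h | h
    · exact hS _ hqS _ hp (adj_cc _ _ h)
    · exact hS _ hp _ hqS (adj_cc _ _ h)
  have hx : ∀ x : Fin 13, 3 ≤ x.val → x.val < 12 → ((p, x) : Fin 20 × Fin 13) ∉ S := by
    intro x h1 h2 hxS
    rcases adj_cx p x h1 h2 with h | h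
    · exact hS _ hp _ hxS h
    · exact hS _ hxS _ hp h
  obtain ⟨m, hm⟩ : ∃ m : Fin 3, ∀ r : Fin 3, r ≠ m →
      ((p, r.castLE (by decide)) : Fin 20 × Fin 13) ∉ S := by
    by_contra hcon
    push Not at hcon
    obtain ⟨r, hr, hrS⟩ := hcon 0
    obtain ⟨s, hs, hsS⟩ := hcon r
    rcases adj_aa p r s (Ne.symm hs) with h | h
    · exact hS _ hrS _ hsS h
    · exact hS _ hsS _ hrS h
  obtain ⟨t, ht⟩ := hall (pth p m) (pth_injective p m) (fun i => pth_adj p m i)
  rcases pth_cases p m t with ⟨q, hq, h⟩ | ⟨x, h1, h2, h⟩ | ⟨r, hr, h⟩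
  · exact hc q hq (h ▸ ht)
  · exact hx x h1 h2 (h ▸ ht)
  · exact hm r hr (h ▸ ht)

end Pool.Agent.Helper20.LPX
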